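import Mathlib

/-!
# Squeezing

Intervals `(p a b, q a b]` with end points in a finite set `S`, disjoint for fixed `b`, and labels which together with the
end points determine `(a, b)`.
-/

set_option autoImplicit false

open Finset

namespace Pool.Agent.h232sq

theorem squeeze {α β γ ι : Type*} [LinearOrder γ] (I : Finset α) (B : Finset β) (S : Finset γ)
    (G : Finset ι) (p q : α → β → γ) (l : α → β → ι)
    (hp : ∀ a ∈ I, ∀ b ∈ B, p a b ∈ S) (hq : ∀ a ∈ I, ∀ b ∈ B, q a b ∈ S)
    (hlt : ∀ a ∈ I, ∀ b ∈ B, p a b < q a b)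
    (hdis : ∀ b ∈ B, ∀ a ∈ I, ∀ a' ∈ I, a ≠ a' → ∀ x, ¬ ((p a b < x ∧ x ≤ q a b) ∧ (p a' b < x ∧ x ≤ q a' b)))
    (hl : ∀ a ∈ I, ∀ b ∈ B, l a b ∈ G)
    (hinj : ∀ a ∈ I, ∀ b ∈ B, ∀ a' ∈ I, ∀ b' ∈ B, p a b = p a' b' → q a b = q a' b' → l a b = l a' b' →
      a = a' ∧ b = b') :
    I.card ^ 2 * B.card ≤ 4 * G.card * S.card ^ 2 := by
  classical
  rcases Nat.eq_zero_or_pos I.card with hI | hI
  · rw [hI]; simp
  rcases B.eq_empty_or_nonempty with hB | ⟨b₀, hb₀⟩
  · rw [hB]; simp
  obtain ⟨a₀, ha₀⟩ := Finset.card_pos.1 hI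
  have hS : 0 < S.card := Finset.card_pos.2 ⟨_, hp a₀ ha₀ b₀ hb₀⟩
  set m := I.card with hm
  -- the number of elements of `S` in the interval
  let κ : α → β → ℕ := fun a b => (S.filter (fun x => p a b < x ∧ x ≤ q a b)).card
  have hκsum : ∀ b ∈ B, ∑ a ∈ I, κ a b ≤ S.card := by
    intro b hb
    rw [← Finset.card_biUnion]
    · exact Finset.card_le_card (Finset.biUnion_subset.2 fun a _ => Finset.filter_subset _ _)
    · intro a ha a' ha' hne
      rw [Function.onFun, Finset.disjoint_left]
      intro x hx hx'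
      rw [mem_filter] at hx hx'
      exact hdis b hb a ha a' ha' hne x ⟨hx.2, hx'.2⟩
  have hκpos : ∀ a ∈ I, ∀ b ∈ B, 1 ≤ κ a b := by
    intro a ha b hb
    refine Finset.card_pos.2 ⟨q a b, ?_⟩
    rw [mem_filter]
    exact ⟨hq a ha b hb, hlt a ha b hb, le_rfl⟩
  let P : Finset (α × β) := (I ×ˢ B).filter (fun z => κ z.1 z.2 * m ≤ 2 * S.card)
  have hP1 : m * B.card ≤ 2 * P.card := by
    have h1 : P.card = ∑ b ∈ B, (I.filter (fun a => κ a b * m ≤ 2 * S.card)).card := by
      rw [Finset.card_filter, Finset.sum_product_right]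
      refine Finset.sum_congr rfl fun b _ => ?_
      rw [Finset.card_filter]
    rw [h1, Finset.mul_sum, mul_comm m, ← smul_eq_mul, ← Finset.sum_const]
    refine Finset.sum_le_sum fun b hb => ?_
    have h2 := hκsum b hb
    have h3 : (I.filter (fun a => ¬ κ a b * m ≤ 2 * S.card)).card * (2 * S.card) ≤ m * S.card := by
      calc (I.filter (fun a => ¬ κ a b * m ≤ 2 * S.card)).card * (2 * S.card)
          = ∑ _a ∈ I.filter (fun a => ¬ κ a b * m ≤ 2 * S.card), 2 * S.card := by
            rw [Finset.sum_const, smul_eq_mul]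
        _ ≤ ∑ a ∈ I.filter (fun a => ¬ κ a b * m ≤ 2 * S.card), κ a b * m := by
            refine Finset.sum_le_sum fun a ha => ?_
            rw [mem_filter] at ha
            omega
        _ ≤ ∑ a ∈ I, κ a b * m :=
            Finset.sum_le_sum_of_subset_of_nonneg (Finset.filter_subset _ _) fun _ _ _ => Nat.zero_le _
        _ = m * ∑ a ∈ I, κ a b := by rw [Finset.mul_sum]; exact Finset.sum_congr rfl fun _ _ => mul_comm _ _
        _ ≤ m * S.card := Nat.mul_le_mul_left _ h2
    have h4 : 2 * (I.filter (fun a => ¬ κ a b * m ≤ 2 * S.card)).card ≤ m := by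
      by_contra hcon
      rw [not_le] at hcon
      have h5 : m * S.card < (2 * (I.filter (fun a => ¬ κ a b * m ≤ 2 * S.card)).card) * S.card :=
        Nat.mul_lt_mul_of_pos_right hcon hS
      nlinarith
    have h5 := Finset.card_filter_add_card_filter_not (s := I) (fun a => κ a b * m ≤ 2 * S.card)
    omega
  set K := 2 * S.card / m with hK
  have hKm : K * m ≤ 2 * S.card := Nat.div_mul_le_self _ _
  have hP2 : P.card ≤ S.card * (K * G.card) := by
    have h1 : P.card ≤ (S ×ˢ (Icc 1 K ×ˢ G)).card := by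
      refine Finset.card_le_card_of_injOn (fun z => (p z.1 z.2, (κ z.1 z.2, l z.1 z.2))) ?_ ?_
      · rintro ⟨a, b⟩ hz
        rw [Finset.mem_coe, mem_filter, mem_product] at hz
        obtain ⟨⟨ha, hb⟩, hz⟩ := hz
        simp only [Finset.coe_product, Set.mem_prod, Finset.mem_coe, Finset.mem_Icc]
        refine ⟨hp a ha b hb, ⟨hκpos a ha b hb, ?_⟩, hl a ha b hb⟩
        exact (Nat.le_div_iff_mul_le hI).2 hz
      · rintro ⟨a, b⟩ hz ⟨a', b'⟩ hz' heq
        rw [Finset.mem_coe, mem_filter, mem_product] at hz hz'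
        obtain ⟨⟨ha, hb⟩, -⟩ := hz
        obtain ⟨⟨ha', hb'⟩, -⟩ := hz'
        simp only [Prod.mk.injEq] at heq
        obtain ⟨h1, h2, h3⟩ := heq
        have h4 : q a b = q a' b' := by
          rcases lt_trichotomy (q a b) (q a' b') with h5 | h5 | h5
          · exfalso
            have h6 : κ a b < κ a' b' := by
              refine Finset.card_lt_card ⟨?_, ?_⟩
              · intro x hx
                rw [mem_filter] at hx ⊢
                exact ⟨hx.1, h1 ▸ hx.2.1, hx.2.2.trans h5.le⟩
              · intro hsub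
                have h7 := hsub (mem_filter.2 ⟨hq a' ha' b' hb', hlt a' ha' b' hb', le_rfl⟩)
                rw [mem_filter] at h7
                exact absurd h7.2.2 (not_le.2 h5)
            omega
          · exact h5
          · exfalso
            have h6 : κ a' b' < κ a b := by
              refine Finset.card_lt_card ⟨?_, ?_⟩
              · intro x hx
                rw [mem_filter] at hx ⊢
                exact ⟨hx.1, h1.symm ▸ hx.2.1, hx.2.2.trans h5.le⟩
              · intro hsub
                have h7 := hsub (mem_filter.2 ⟨hq a ha b hb, hlt a ha b hb, le_rfl⟩)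
                rw [mem_filter] at h7
                exact absurd h7.2.2 (not_le.2 h5)
            omega
        obtain ⟨h5, h6⟩ := hinj a ha b hb a' ha' b' hb' h1 h4 h3
        rw [h5, h6]
    refine h1.trans_eq ?_
    rw [Finset.card_product, Finset.card_product, Nat.card_Icc, Nat.add_sub_cancel]
  calc m ^ 2 * B.card = m * (m * B.card) := by ring
    _ ≤ m * (2 * P.card) := Nat.mul_le_mul_left _ hP1
    _ ≤ m * (2 * (S.card * (K * G.card))) := by gcongr
    _ = (K * m) * (2 * S.card * G.card) := by ring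
    _ ≤ (2 * S.card) * (2 * S.card * G.card) := Nat.mul_le_mul_right _ hKm
    _ = 4 * G.card * S.card ^ 2 := by ring

end Pool.Agent.h232sq
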