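import Pool.Agent.h232_sq.Core

/-!
# Products and sums of sets with repeated gaps or ratios
-/

set_option autoImplicit false

open Finset
open scoped Pointwise

namespace Pool.Agent.h232sq

/-- the pairs of consecutive elements of `A` -/
def consec {K : Type*} [LinearOrder K] (A : Finset K) : Finset (K × K) :=
  (A ×ˢ A).filter (fun z => z.1 < z.2 ∧ ∀ x ∈ A, ¬ (z.1 < x ∧ x < z.2))

section order

variable {K : Type*} [LinearOrder K]

theorem mem_consec {A : Finset K} {z : K × K} :
    z ∈ consec A ↔ (z.1 ∈ A ∧ z.2 ∈ A) ∧ z.1 < z.2 ∧ ∀ x ∈ A, ¬ (z.1 < x ∧ x < z.2) := by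
  rw [consec, mem_filter, mem_product]

theorem consec_sep {A : Finset K} {z z' : K × K} (hz : z ∈ consec A) (hz' : z' ∈ consec A) (hne : z ≠ z') :
    z.2 ≤ z'.1 ∨ z'.2 ≤ z.1 := by
  rw [mem_consec] at hz hz'
  obtain ⟨⟨h1, h2⟩, h3, h4⟩ := hz
  obtain ⟨⟨h1', h2'⟩, h3', h4'⟩ := hz'
  rcases lt_trichotomy z.1 z'.1 with h | h | h
  · left
    by_contra hcon
    exact h4 _ h1' ⟨h, not_le.1 hcon⟩
  · exfalso
    rcases lt_trichotomy z.2 z'.2 with h5 | h5 | h5
    · exact h4' _ h2 ⟨h ▸ h3, h5⟩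
    · exact hne (Prod.ext h h5)
    · exact h4 _ h2' ⟨h.symm ▸ h3', h5⟩
  · right
    by_contra hcon
    exact h4' _ h1 ⟨h, not_le.1 hcon⟩

theorem card_consec (A : Finset K) : A.card ≤ (consec A).card + 1 := by
  classical
  rcases A.eq_empty_or_nonempty with rfl | hA
  · simp
  have h1 : A.erase (A.max' hA) ⊆ (consec A).image Prod.fst := by
    intro a ha
    rw [mem_erase] at ha
    have h2 : a < A.max' hA := lt_of_le_of_ne (A.le_max' a ha.2) ha.1
    have h3 : (A.filter (fun x => a < x)).Nonempty := ⟨_, mem_filter.2 ⟨A.max'_mem hA, h2⟩⟩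
    have h4 := (A.filter (fun x => a < x)).min'_mem h3
    rw [mem_filter] at h4
    rw [mem_image]
    refine ⟨(a, (A.filter (fun x => a < x)).min' h3), ?_, rfl⟩
    rw [mem_consec]
    refine ⟨⟨ha.2, h4.1⟩, h4.2, fun x hx hx2 => ?_⟩
    have h5 := (A.filter (fun x => a < x)).min'_le x (mem_filter.2 ⟨hx, hx2.1⟩)
    exact absurd hx2.2 (not_lt.2 h5)
  have h2 := (Finset.card_le_card h1).trans Finset.card_image_le
  rw [Finset.card_erase_of_mem (A.max'_mem hA)] at h2
  omega

omit [LinearOrder K] in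
/-- frequent labels -/
theorem frequent {ι : Type*} [DecidableEq ι] (C : Finset (K × K)) (f : K × K → ι) (k N b : ℕ)
    (h : ∀ G : Finset ι, (C.filter (fun z => f z ∈ G)).card ^ 2 * b ≤ N * G.card) :
    k ^ 2 * b * ((C.image f).filter (fun d => k ≤ (C.filter (fun z => f z = d)).card)).card ≤ N := by
  set G := (C.image f).filter (fun d => k ≤ (C.filter (fun z => f z = d)).card) with hG
  have h1 := h G
  have h2 : k * G.card ≤ (C.filter (fun z => f z ∈ G)).card := by
    have h3 : (C.filter (fun z => f z ∈ G)).card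
        = ∑ d ∈ G, ((C.filter (fun z => f z ∈ G)).filter (fun z => f z = d)).card :=
      Finset.card_eq_sum_card_fiberwise (fun z hz => (mem_filter.1 hz).2)
    rw [h3, mul_comm, ← smul_eq_mul, ← Finset.sum_const]
    refine Finset.sum_le_sum fun d hd => ?_
    have h4 := (mem_filter.1 (hG ▸ hd)).2
    refine h4.trans (Finset.card_le_card fun z hz => ?_)
    rw [mem_filter] at hz
    rw [mem_filter, mem_filter]
    exact ⟨⟨hz.1, hz.2.symm ▸ hd⟩, hz.2⟩
  rcases Nat.eq_zero_or_pos G.card with h0 | h0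
  · rw [h0]; simp
  · have h4 : (k * G.card) ^ 2 * b ≤ N * G.card :=
      le_trans (Nat.mul_le_mul_right _ (Nat.pow_le_pow_left h2 2)) h1
    have h5 : (k ^ 2 * b * G.card) * G.card ≤ N * G.card := by
      calc (k ^ 2 * b * G.card) * G.card = (k * G.card) ^ 2 * b := by ring
        _ ≤ N * G.card := h4
    exact Nat.le_of_mul_le_mul_right h5 h0

end order

/-- products -/
theorem prod_bound {K : Type*} [CommRing K] [LinearOrder K] [IsStrictOrderedRing K] (A B G : Finset K)
    (hB : (0 : K) ∉ B) :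
    ((consec A).filter (fun z => z.2 - z.1 ∈ G)).card ^ 2 * B.card ≤ 8 * (A * B).card ^ 2 * G.card := by
  classical
  have h := squeeze ((consec A).filter (fun z => z.2 - z.1 ∈ G)) B (A * B) (G ×ˢ (univ : Finset Bool))
    (fun z b => min (z.1 * b) (z.2 * b)) (fun z b => max (z.1 * b) (z.2 * b))
    (fun z b => (z.2 - z.1, decide (0 < b))) ?_ ?_ ?_ ?_ ?_ ?_
  · refine h.trans_eq ?_
    rw [Finset.card_product, Finset.card_univ, Fintype.card_bool]
    ring
  · intro z hz b hb
    have hz' := mem_consec.1 (mem_filter.1 hz).1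
    rcases min_choice (z.1 * b) (z.2 * b) with h | h <;> rw [h]
    · exact mul_mem_mul hz'.1.1 hb
    · exact mul_mem_mul hz'.1.2 hb
  · intro z hz b hb
    have hz' := mem_consec.1 (mem_filter.1 hz).1
    rcases max_choice (z.1 * b) (z.2 * b) with h | h <;> rw [h]
    · exact mul_mem_mul hz'.1.1 hb
    · exact mul_mem_mul hz'.1.2 hb
  · intro z hz b hb
    have hz' := mem_consec.1 (mem_filter.1 hz).1
    have hb0 : b ≠ 0 := fun h0 => hB (h0 ▸ hb)
    rw [min_lt_max]
    intro heq
    exact absurd (mul_right_cancel₀ hb0 heq) hz'.2.1.ne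
  · intro b hb z hz z' hz' hne x ⟨⟨h1, h2⟩, h3, h4⟩
    have hb0 : b ≠ 0 := fun h0 => hB (h0 ▸ hb)
    have hc := mem_consec.1 (mem_filter.1 hz).1
    have hc' := mem_consec.1 (mem_filter.1 hz').1
    have hlt := hc.2.1
    have hlt' := hc'.2.1
    rcases lt_or_gt_of_ne hb0 with hb1 | hb1
    · have e1 : z.2 * b < z.1 * b := mul_lt_mul_of_neg_right hlt hb1
      have e2 : z'.2 * b < z'.1 * b := mul_lt_mul_of_neg_right hlt' hb1
      rw [min_eq_right e1.le] at h1
      rw [max_eq_left e1.le] at h2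
      rw [min_eq_right e2.le] at h3
      rw [max_eq_left e2.le] at h4
      rcases consec_sep (mem_filter.1 hz).1 (mem_filter.1 hz').1 hne with h5 | h5
      · have h6 : z'.1 * b ≤ z.2 * b := mul_le_mul_of_nonpos_right h5 hb1.le
        exact absurd (h4.trans h6) (not_le.2 h1)
      · have h6 : z.1 * b ≤ z'.2 * b := mul_le_mul_of_nonpos_right h5 hb1.le
        exact absurd (h2.trans h6) (not_le.2 h3)
    · have e1 : z.1 * b < z.2 * b := mul_lt_mul_of_pos_right hlt hb1
      have e2 : z'.1 * b < z'.2 * b := mul_lt_mul_of_pos_right hlt' hb1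
      rw [min_eq_left e1.le] at h1
      rw [max_eq_right e1.le] at h2
      rw [min_eq_left e2.le] at h3
      rw [max_eq_right e2.le] at h4
      rcases consec_sep (mem_filter.1 hz).1 (mem_filter.1 hz').1 hne with h5 | h5
      · have h6 : z.2 * b ≤ z'.1 * b := mul_le_mul_of_nonneg_right h5 hb1.le
        exact absurd (h2.trans h6) (not_le.2 h3)
      · have h6 : z'.2 * b ≤ z.1 * b := mul_le_mul_of_nonneg_right h5 hb1.le
        exact absurd (h4.trans h6) (not_le.2 h1)
  · intro z hz b hb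
    rw [mem_product]
    exact ⟨(mem_filter.1 hz).2, mem_univ _⟩
  · intro z hz b hb z' hz' b' hb' h1 h2 h3
    have hb0 : b ≠ 0 := fun h0 => hB (h0 ▸ hb)
    have hb0' : b' ≠ 0 := fun h0 => hB (h0 ▸ hb')
    have hc := mem_consec.1 (mem_filter.1 hz).1
    have hc' := mem_consec.1 (mem_filter.1 hz').1
    have hlt := hc.2.1
    have hlt' := hc'.2.1
    simp only [Prod.mk.injEq] at h1 h2 h3
    obtain ⟨h3, h4⟩ := h3
    have hd : z.2 - z.1 ≠ 0 := (sub_pos.2 hlt).ne'
    have key : z.1 * b = z'.1 * b' → z.2 * b = z'.2 * b' → z = z' ∧ b = b' := by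
      intro e1 e2
      have e3 : (z.2 - z.1) * b = (z.2 - z.1) * b' := by
        calc (z.2 - z.1) * b = z.2 * b - z.1 * b := by ring
          _ = z'.2 * b' - z'.1 * b' := by rw [e1, e2]
          _ = (z'.2 - z'.1) * b' := by ring
          _ = (z.2 - z.1) * b' := by rw [h3]
      have e4 := mul_left_cancel₀ hd e3
      rw [← e4] at e1 e2
      exact ⟨Prod.ext (mul_right_cancel₀ hb0 e1) (mul_right_cancel₀ hb0 e2), e4⟩
    by_cases hb1 : 0 < b
    · have hb1' : 0 < b' := by
        by_contra hcon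
        rw [decide_eq_true hb1, decide_eq_false hcon] at h4
        exact absurd h4 (by decide)
      rw [min_eq_left (mul_lt_mul_of_pos_right hlt hb1).le,
        min_eq_left (mul_lt_mul_of_pos_right hlt' hb1').le] at h1
      rw [max_eq_right (mul_lt_mul_of_pos_right hlt hb1).le,
        max_eq_right (mul_lt_mul_of_pos_right hlt' hb1').le] at h2
      exact key h1 h2
    · have hb1' : ¬ 0 < b' := by
        intro hcon
        rw [decide_eq_false hb1, decide_eq_true hcon] at h4
        exact absurd h4 (by decide)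
      have hb2 : b < 0 := lt_of_le_of_ne (not_lt.1 hb1) hb0
      have hb2' : b' < 0 := lt_of_le_of_ne (not_lt.1 hb1') hb0'
      rw [min_eq_right (mul_lt_mul_of_neg_right hlt hb2).le,
        min_eq_right (mul_lt_mul_of_neg_right hlt' hb2').le] at h1
      rw [max_eq_left (mul_lt_mul_of_neg_right hlt hb2).le,
        max_eq_left (mul_lt_mul_of_neg_right hlt' hb2').le] at h2
      exact key h2 h1

/-- sums -/
theorem sum_bound {K : Type*} [Field K] [LinearOrder K] [IsStrictOrderedRing K] (A B G : Finset K)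
    (hA : (0 : K) ∉ A) :
    ((consec A).filter (fun z => z.2 / z.1 ∈ G)).card ^ 2 * B.card ≤ 4 * (A + B).card ^ 2 * G.card := by
  classical
  have h := squeeze ((consec A).filter (fun z => z.2 / z.1 ∈ G)) B (A + B) G
    (fun z b => z.1 + b) (fun z b => z.2 + b) (fun z _ => z.2 / z.1) ?_ ?_ ?_ ?_ ?_ ?_
  · refine h.trans_eq ?_
    ring
  · intro z hz b hb
    exact add_mem_add (mem_consec.1 (mem_filter.1 hz).1).1.1 hb
  · intro z hz b hb
    exact add_mem_add (mem_consec.1 (mem_filter.1 hz).1).1.2 hb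
  · intro z hz b hb
    exact add_lt_add_of_lt_of_le (mem_consec.1 (mem_filter.1 hz).1).2.1 le_rfl
  · intro b hb z hz z' hz' hne x ⟨⟨h1, h2⟩, h3, h4⟩
    rcases consec_sep (mem_filter.1 hz).1 (mem_filter.1 hz').1 hne with h5 | h5
    · have h6 : z.2 + b ≤ z'.1 + b := add_le_add h5 le_rfl
      exact absurd (h2.trans h6) (not_le.2 h3)
    · have h6 : z'.2 + b ≤ z.1 + b := add_le_add h5 le_rfl
      exact absurd (h4.trans h6) (not_le.2 h1)
  · intro z hz b hb
    exact (mem_filter.1 hz).2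
  · intro z hz b hb z' hz' b' hb' h1 h2 h3
    have hc := mem_consec.1 (mem_filter.1 hz).1
    have hc' := mem_consec.1 (mem_filter.1 hz').1
    have hz0 : z.1 ≠ 0 := fun h0 => hA (h0 ▸ hc.1.1)
    have hz0' : z'.1 ≠ 0 := fun h0 => hA (h0 ▸ hc'.1.1)
    have hlt := hc.2.1
    have e1 : z.2 = z.2 / z.1 * z.1 := (div_mul_cancel₀ _ hz0).symm
    have e2 : z'.2 = z.2 / z.1 * z'.1 := by
      have h3' : z.2 / z.1 = z'.2 / z'.1 := h3
      rw [h3']; exact (div_mul_cancel₀ _ hz0').symm
    have e3 : (z.2 / z.1 - 1) * z.1 = (z.2 / z.1 - 1) * z'.1 := by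
      have e4 : z.2 - z.1 = z'.2 - z'.1 := by
        have h1' : z.1 + b = z'.1 + b' := h1
        have h2' : z.2 + b = z'.2 + b' := h2
        linear_combination h2' - h1'
      calc (z.2 / z.1 - 1) * z.1 = z.2 / z.1 * z.1 - z.1 := by ring
        _ = z.2 - z.1 := by rw [← e1]
        _ = z'.2 - z'.1 := e4
        _ = z.2 / z.1 * z'.1 - z'.1 := by rw [← e2]
        _ = (z.2 / z.1 - 1) * z'.1 := by ring
    have e5 : z.2 / z.1 - 1 ≠ 0 := by
      rw [sub_ne_zero]
      intro h5
      rw [h5, one_mul] at e1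
      exact hlt.ne e1.symm
    have e6 : z.1 = z'.1 := mul_left_cancel₀ e5 e3
    have e7 : z.2 = z'.2 := by rw [e1, e2, e6]
    refine ⟨Prod.ext e6 e7, ?_⟩
    have h1' : z.1 + b = z'.1 + b' := h1
    rw [e6] at h1'
    exact add_left_cancel h1'

end Pool.Agent.h232sq
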