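import Pool.Agent.h232_sq.Gaps

/-!
# Unions of sets with few distinct gaps or ratios
-/

set_option autoImplicit false

open Finset
open scoped Pointwise

namespace Pool.Agent.h232sq

/-- the gaps of `A`: the differences of consecutive elements -/
noncomputable def gaps (A : Finset ℝ) : Finset ℝ := (consec A).image (fun z => z.2 - z.1)

/-- the ratios of consecutive elements of `A` -/
noncomputable def ratios (A : Finset ℝ) : Finset ℝ := (consec A).image (fun z => z.2 / z.1)

theorem few_gaps (A B : Finset ℝ) (hB : (0 : ℝ) ∉ B) :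
    (consec A).card ^ 2 * B.card ≤ 8 * (A * B).card ^ 2 * (gaps A).card := by
  have h := prod_bound A B (gaps A) hB
  have e : (consec A).filter (fun z => z.2 - z.1 ∈ gaps A) = consec A :=
    Finset.filter_true_of_mem (fun z hz => mem_image_of_mem _ hz)
  rwa [e] at h

theorem few_ratios (A B : Finset ℝ) (hA : (0 : ℝ) ∉ A) :
    (consec A).card ^ 2 * B.card ≤ 4 * (A + B).card ^ 2 * (ratios A).card := by
  have h := sum_bound A B (ratios A) hA
  have e : (consec A).filter (fun z => z.2 / z.1 ∈ ratios A) = consec A :=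
    Finset.filter_true_of_mem (fun z hz => mem_image_of_mem _ hz)
  rwa [e] at h

theorem union_bound {ι : Type*} (A : Finset ℝ) (T : Finset ι) (S : ι → Finset ℝ) (g : ℕ)
    (hA : A = T.biUnion S)
    (hS : ∀ j ∈ T, (gaps (S j)).card ≤ g ∨ ((0 : ℝ) ∉ S j ∧ (ratios (S j)).card ≤ g))
    (hT : 2 * T.card ≤ A.card) :
    A.card ^ 3 ≤ 64 * g * T.card ^ 2 * (max (A + A).card (A * A).card) ^ 2 := by
  classical
  rcases Nat.eq_zero_or_pos A.card with h0 | h0
  · rw [h0]; simp
  have hTne : T.Nonempty := by
    rw [Finset.nonempty_iff_ne_empty]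
    rintro rfl
    rw [hA] at h0
    simp at h0
  have hTpos : 0 < T.card := hTne.card_pos
  obtain ⟨j, hj, hjn⟩ : ∃ j ∈ T, A.card ≤ T.card * (S j).card := by
    by_contra hcon
    push Not at hcon
    have h1 : ∑ j ∈ T, T.card * (S j).card < ∑ _j ∈ T, A.card := Finset.sum_lt_sum_of_nonempty hTne hcon
    rw [Finset.sum_const, smul_eq_mul, ← Finset.mul_sum] at h1
    have h2 : A.card ≤ ∑ j ∈ T, (S j).card := by
      rw [hA]; exact Finset.card_biUnion_le
    have h3 := Nat.lt_of_mul_lt_mul_left h1
    omega
  have hSA : S j ⊆ A := by rw [hA]; exact Finset.subset_biUnion_of_mem S hj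
  have hc := card_consec (S j)
  set c := (consec (S j)).card with hcdef
  have hn : A.card ≤ 2 * T.card * c := by
    have h1 : T.card * (S j).card ≤ T.card * (c + 1) := Nat.mul_le_mul_left _ hc
    rw [Nat.mul_add, mul_one] at h1
    rw [mul_assoc]
    omega
  rcases hS j hj with h1 | ⟨h1, h2⟩
  · have hB : (0 : ℝ) ∉ A.erase 0 := Finset.notMem_erase 0 A
    have h3 := few_gaps (S j) (A.erase 0) hB
    have h4 : A.card ≤ 2 * (A.erase 0).card := by
      have h5 := Finset.pred_card_le_card_erase (s := A) (a := (0 : ℝ))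
      omega
    have h5 : (S j * A.erase 0).card ≤ max (A + A).card (A * A).card :=
      (Finset.card_le_card (Finset.mul_subset_mul hSA (Finset.erase_subset _ _))).trans (le_max_right _ _)
    calc A.card ^ 3 = A.card ^ 2 * A.card := by ring
      _ ≤ (2 * T.card * c) ^ 2 * (2 * (A.erase 0).card) := by gcongr
      _ = 8 * T.card ^ 2 * (c ^ 2 * (A.erase 0).card) := by ring
      _ ≤ 8 * T.card ^ 2 * (8 * (S j * A.erase 0).card ^ 2 * (gaps (S j)).card) := by gcongr
      _ ≤ 8 * T.card ^ 2 * (8 * (max (A + A).card (A * A).card) ^ 2 * g) := by gcongr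
      _ = 64 * g * T.card ^ 2 * (max (A + A).card (A * A).card) ^ 2 := by ring
  · have h3 := few_ratios (S j) A h1
    have h5 : (S j + A).card ≤ max (A + A).card (A * A).card :=
      (Finset.card_le_card (Finset.add_subset_add_right hSA)).trans (le_max_left _ _)
    calc A.card ^ 3 = A.card ^ 2 * A.card := by ring
      _ ≤ (2 * T.card * c) ^ 2 * A.card := by gcongr
      _ = 4 * T.card ^ 2 * (c ^ 2 * A.card) := by ring
      _ ≤ 4 * T.card ^ 2 * (4 * (S j + A).card ^ 2 * (ratios (S j)).card) := by gcongr
      _ ≤ 4 * T.card ^ 2 * (4 * (max (A + A).card (A * A).card) ^ 2 * g) := by gcongr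
      _ = 16 * (g * T.card ^ 2 * (max (A + A).card (A * A).card) ^ 2) := by ring
      _ ≤ 64 * (g * T.card ^ 2 * (max (A + A).card (A * A).card) ^ 2) := Nat.mul_le_mul_right _ (by norm_num)
      _ = 64 * g * T.card ^ 2 * (max (A + A).card (A * A).card) ^ 2 := by ring

/-- a set of integers as a set of real numbers -/
noncomputable def real (A : Finset ℤ) : Finset ℝ := A.image (fun x : ℤ => (x : ℝ))

theorem card_real (A : Finset ℤ) : (real A).card = A.card :=
  Finset.card_image_of_injective _ Int.cast_injective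

theorem real_add (A B : Finset ℤ) : real (A + B) = real A + real B := by
  classical
  exact Finset.image_add (Int.castRingHom ℝ)

theorem real_mul (A B : Finset ℤ) : real (A * B) = real A * real B := by
  classical
  exact Finset.image_mul (Int.castRingHom ℝ)

theorem union_int {ι : Type*} (A : Finset ℤ) (T : Finset ι) (S : ι → Finset ℤ) (g : ℕ)
    (hA : A = T.biUnion S)
    (hS : ∀ j ∈ T, (gaps (real (S j))).card ≤ g ∨ ((0 : ℤ) ∉ S j ∧ (ratios (real (S j))).card ≤ g))
    (hT : 2 * T.card ≤ A.card) :
    A.card ^ 3 ≤ 64 * g * T.card ^ 2 * (max (A + A).card (A * A).card) ^ 2 := by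
  classical
  have h := union_bound (real A) T (fun j => real (S j)) g (by
      rw [hA, real, Finset.biUnion_image]; rfl) (fun j hj => by
      rcases hS j hj with h1 | ⟨h1, h2⟩
      · exact Or.inl h1
      · refine Or.inr ⟨?_, h2⟩
        rw [real, mem_image]
        rintro ⟨x, hx, hx0⟩
        rw [Int.cast_eq_zero] at hx0
        exact h1 (hx0 ▸ hx)) (by rw [card_real]; exact hT)
  rwa [← real_add, ← real_mul, card_real, card_real, card_real] at h

end Pool.Agent.h232sq
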